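import Mathlib

set_option autoImplicit false

/-!
# MP_fce888_co, section 4.7: potentials for a sequential random choice

The random sequence `D_1, D_2, ...` of 4.7 is chosen deterministically by the method of conditional
expectations: `Φ R l` is a function of the list `l` of the elements chosen so far and of the number `R` of
the remaining steps.
-/

namespace Pool.Agent.Lib.MP_fce888_co.C47

open Finset
open scoped Classical

/-- `Φ` is a supermartingale for the choice of `a ∈ GG` with probability `μ a` (and of nothing with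
the remaining probability). -/
def Sup {α : Type} (GG : Finset α) (μ : α → ℝ) (Φ : ℕ → List α → ℝ) : Prop :=
  ∀ (R : ℕ) (l : List α), (∀ a ∈ l, a ∈ GG) →
    ∑ a ∈ GG, μ a * Φ R (a :: l) + (1 - ∑ a ∈ GG, μ a) * Φ R l ≤ Φ (R + 1) l

theorem Sup.add {α : Type} {GG : Finset α} {μ : α → ℝ} {Φ Ψ : ℕ → List α → ℝ}
    (h1 : Sup GG μ Φ) (h2 : Sup GG μ Ψ) : Sup GG μ (fun R l => Φ R l + Ψ R l) := by
  intro R l hl
  have e1 := h1 R l hl
  have e2 := h2 R l hl
  simp only [mul_add, Finset.sum_add_distrib]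
  linarith

theorem Sup.zero {α : Type} {GG : Finset α} {μ : α → ℝ} : Sup GG μ (fun _ _ => 0) := by
  intro R l _
  simp

theorem Sup.sum {α β : Type} {GG : Finset α} {μ : α → ℝ} (J : Finset β) (Φ : β → ℕ → List α → ℝ)
    (h : ∀ y ∈ J, Sup GG μ (Φ y)) : Sup GG μ (fun R l => ∑ y ∈ J, Φ y R l) := by
  classical
  induction J using Finset.induction_on with
  | empty => simpa using (Sup.zero : Sup GG μ (fun _ _ => 0))
  | insert y J hy ih =>
    have h1 := h y (Finset.mem_insert_self _ _)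
    have h2 := ih fun z hz => h z (Finset.mem_insert_of_mem hz)
    simpa [Finset.sum_insert hy] using h1.add h2

/-- the deterministic choice -/
theorem Sup.chain {α : Type} {GG : Finset α} {μ : α → ℝ} (hμ : ∀ a, 0 ≤ μ a)
    (hm : ∑ a ∈ GG, μ a ≤ 1) {Φ : ℕ → List α → ℝ} (h : Sup GG μ Φ) :
    ∀ (R : ℕ) (l : List α), (∀ a ∈ l, a ∈ GG) → ∃ l', (∀ a ∈ l', a ∈ GG) ∧ Φ 0 l' ≤ Φ R l := by
  intro R
  induction R with
  | zero => exact fun l hl => ⟨l, hl, le_refl _⟩
  | succ R ih =>
    intro l hl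
    by_cases hn : Φ R l ≤ Φ (R + 1) l
    · obtain ⟨l', h1, h2⟩ := ih l hl
      exact ⟨l', h1, h2.trans hn⟩
    · by_cases hex : ∃ a ∈ GG, Φ R (a :: l) ≤ Φ (R + 1) l
      · obtain ⟨a, ha, hle⟩ := hex
        obtain ⟨l', h1, h2⟩ := ih (a :: l) (by
          intro b hb
          rcases List.mem_cons.mp hb with rfl | hb
          · exact ha
          · exact hl b hb)
        exact ⟨l', h1, h2.trans hle⟩
      · exfalso
        push Not at hex hn
        have hs := h R l hl
        set B := Φ (R + 1) l with hB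
        have e1 : ∑ a ∈ GG, μ a * B ≤ ∑ a ∈ GG, μ a * Φ R (a :: l) :=
          Finset.sum_le_sum fun a ha => mul_le_mul_of_nonneg_left (hex a ha).le (hμ a)
        rw [← Finset.sum_mul] at e1
        have hT : ∑ a ∈ GG, μ a = 1 := by
          by_contra hne
          have hlt : ∑ a ∈ GG, μ a < 1 := lt_of_le_of_ne hm hne
          nlinarith
        -- some weight is positive
        have hpos : ∃ a ∈ GG, 0 < μ a := by
          by_contra hcon
          push Not at hcon
          have : ∑ a ∈ GG, μ a ≤ 0 := Finset.sum_nonpos hcon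
          linarith
        obtain ⟨a0, ha0, hp0⟩ := hpos
        have e2 : ∑ a ∈ GG, μ a * B < ∑ a ∈ GG, μ a * Φ R (a :: l) :=
          Finset.sum_lt_sum (fun a ha => mul_le_mul_of_nonneg_left (hex a ha).le (hμ a))
            ⟨a0, ha0, mul_lt_mul_of_pos_left (hex a0 ha0) hp0⟩
        rw [← Finset.sum_mul, hT] at e2
        rw [hT] at hs
        linarith

/-- exponential potential -/
theorem sup_exp {α : Type} {GG : Finset α} {μ : α → ℝ} (hμ : ∀ a, 0 ≤ μ a) (g : α → ℝ) (γ p : ℝ)
    (hγ : 0 < γ) (hg0 : ∀ a, 0 ≤ g a) (hg1 : ∀ a ∈ GG, g a ≤ γ) (hp : ∑ a ∈ GG, μ a * g a ≤ p) :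
    Sup GG μ (fun R l => Real.exp (((l.map g).sum - 1 / 8) / γ) * (1 + 2 * (p / γ)) ^ R) := by
  intro R l _
  have hp0 : 0 ≤ p := le_trans (Finset.sum_nonneg fun a _ => mul_nonneg (hμ a) (hg0 a)) hp
  have hc : 0 ≤ (1 + 2 * (p / γ)) ^ R := by positivity
  set E := Real.exp (((l.map g).sum - 1 / 8) / γ) with hE
  have hE0 : 0 < E := Real.exp_pos _
  have key : ∀ a ∈ GG, μ a * (Real.exp ((((a :: l).map g).sum - 1 / 8) / γ) *
      (1 + 2 * (p / γ)) ^ R) ≤ (μ a + 2 * (μ a * g a) / γ) * (E * (1 + 2 * (p / γ)) ^ R) := by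
    intro a ha
    have hx0 : 0 ≤ g a / γ := div_nonneg (hg0 a) hγ.le
    have hx1 : g a / γ ≤ 1 := (div_le_one hγ).mpr (hg1 a ha)
    have h1 : Real.exp (g a / γ) ≤ 1 + 2 * (g a / γ) := by
      have := Real.abs_exp_sub_one_sub_id_le (x := g a / γ) (by rw [abs_of_nonneg hx0]; exact hx1)
      have h2 := (abs_le.mp this).2
      nlinarith
    have h2 : Real.exp ((((a :: l).map g).sum - 1 / 8) / γ) = Real.exp (g a / γ) * E := by
      rw [hE, ← Real.exp_add]
      congr 1
      rw [List.map_cons, List.sum_cons]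
      ring
    rw [h2]
    have h3 : Real.exp (g a / γ) * E * (1 + 2 * (p / γ)) ^ R ≤
        (1 + 2 * (g a / γ)) * (E * (1 + 2 * (p / γ)) ^ R) := by
      rw [mul_assoc]
      exact mul_le_mul_of_nonneg_right h1 (mul_nonneg hE0.le hc)
    calc μ a * (Real.exp (g a / γ) * E * (1 + 2 * (p / γ)) ^ R)
        ≤ μ a * ((1 + 2 * (g a / γ)) * (E * (1 + 2 * (p / γ)) ^ R)) :=
          mul_le_mul_of_nonneg_left h3 (hμ a)
      _ = _ := by ring
  have h4 := Finset.sum_le_sum key
  rw [← Finset.sum_mul, Finset.sum_add_distrib] at h4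
  have h5 : ∑ a ∈ GG, 2 * (μ a * g a) / γ ≤ 2 * (p / γ) := by
    rw [← Finset.sum_div, ← Finset.mul_sum, mul_div_assoc]
    have : (∑ a ∈ GG, μ a * g a) / γ ≤ p / γ := div_le_div_of_nonneg_right hp hγ.le
    linarith
  have h6 : 0 ≤ E * (1 + 2 * (p / γ)) ^ R := mul_nonneg hE0.le hc
  have h7 : (∑ a ∈ GG, μ a + ∑ a ∈ GG, 2 * (μ a * g a) / γ) * (E * (1 + 2 * (p / γ)) ^ R) ≤
      (∑ a ∈ GG, μ a + 2 * (p / γ)) * (E * (1 + 2 * (p / γ)) ^ R) :=
    mul_le_mul_of_nonneg_right (by linarith) h6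
  have h8 : E * (1 + 2 * (p / γ)) ^ (R + 1) =
      (1 + 2 * (p / γ)) * (E * (1 + 2 * (p / γ)) ^ R) := by rw [pow_succ]; ring
  show ∑ a ∈ GG, μ a * (Real.exp ((((a :: l).map g).sum - 1 / 8) / γ) * (1 + 2 * (p / γ)) ^ R) +
    (1 - ∑ a ∈ GG, μ a) * (E * (1 + 2 * (p / γ)) ^ R) ≤ E * (1 + 2 * (p / γ)) ^ (R + 1)
  rw [h8]
  linarith

/-- the accepted elements -/
noncomputable def acc {α : Type} (ok : α → Prop) (meets : α → α → Prop) : List α → Finset α
  | [] => ∅
  | a :: l => if ok a ∧ ∀ b ∈ l, ¬ meets a b then insert a (acc ok meets l) else acc ok meets l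

theorem acc_sub {α : Type} (ok : α → Prop) (meets : α → α → Prop) :
    ∀ l : List α, ∀ a ∈ acc ok meets l, a ∈ l ∧ ok a := by
  intro l
  induction l with
  | nil => intro a ha; simp [acc] at ha
  | cons b l ih =>
    intro a ha
    unfold acc at ha
    split_ifs at ha with h
    · rcases Finset.mem_insert.mp ha with rfl | ha
      · exact ⟨List.mem_cons_self, h.1⟩
      · exact ⟨List.mem_cons_of_mem _ (ih a ha).1, (ih a ha).2⟩
    · exact ⟨List.mem_cons_of_mem _ (ih a ha).1, (ih a ha).2⟩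

theorem acc_disj {α : Type} (ok : α → Prop) (meets : α → α → Prop) (hsymm : ∀ a b, meets a b → meets b a) :
    ∀ l : List α, ∀ a ∈ acc ok meets l, ∀ b ∈ acc ok meets l, a ≠ b → ¬ meets a b := by
  intro l
  induction l with
  | nil => intro a ha; simp [acc] at ha
  | cons c l ih =>
    intro a ha b hb hne
    unfold acc at ha hb
    split_ifs at ha hb with h
    · rcases Finset.mem_insert.mp ha with hac | ha'
      · rcases Finset.mem_insert.mp hb with hbc | hb'
        · exact absurd (hac.trans hbc.symm) hne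
        · rw [hac]
          exact h.2 b (acc_sub ok meets l b hb').1
      · rcases Finset.mem_insert.mp hb with hbc | hb'
        · rw [hbc]
          exact fun hm => h.2 a (acc_sub ok meets l a ha').1 (hsymm _ _ hm)
        · exact ih a ha' b hb' hne
    · exact ih a ha b hb hne

theorem acc_mono {α : Type} (ok : α → Prop) (meets : α → α → Prop) (b : α) (l : List α) :
    acc ok meets l ⊆ acc ok meets (b :: l) := by
  intro a ha
  unfold acc
  split_ifs
  · exact Finset.mem_insert_of_mem ha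
  · exact ha

private theorem union_bound {α : Type} (F : Finset α) (μ : α → ℝ) (hμ : ∀ a, 0 ≤ μ a)
    (ok : α → Prop) (meets : α → α → Prop) : ∀ l : List α,
    ∑ a ∈ F, μ a ≤ ∑ a ∈ F.filter (fun a => ok a ∧ ∀ b ∈ l, ¬ meets a b), μ a +
      ∑ a ∈ F.filter (fun a => ¬ ok a), μ a +
      (l.map fun b => ∑ a ∈ F.filter (fun a => meets a b), μ a).sum := by
  intro l
  induction l with
  | nil =>
    have h := Finset.sum_filter_add_sum_filter_not F ok μ
    simp only [List.not_mem_nil, false_imp_iff, implies_true, and_true, List.map_nil, List.sum_nil,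
      add_zero]
    linarith
  | cons b l ih =>
    rw [List.map_cons, List.sum_cons]
    have h1 : ∑ a ∈ F.filter (fun a => ok a ∧ ∀ c ∈ l, ¬ meets a c), μ a ≤
        ∑ a ∈ F.filter (fun a => ok a ∧ ∀ c ∈ b :: l, ¬ meets a c), μ a +
        ∑ a ∈ F.filter (fun a => meets a b), μ a := by
      have hsub : F.filter (fun a => ok a ∧ ∀ c ∈ l, ¬ meets a c) ⊆
          F.filter (fun a => ok a ∧ ∀ c ∈ b :: l, ¬ meets a c) ∪ F.filter (fun a => meets a b) := by
        intro a ha
        rw [Finset.mem_filter] at ha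
        rw [Finset.mem_union, Finset.mem_filter, Finset.mem_filter]
        by_cases hm : meets a b
        · exact Or.inr ⟨ha.1, hm⟩
        · left
          refine ⟨ha.1, ha.2.1, ?_⟩
          intro c hc
          rcases List.mem_cons.mp hc with rfl | hc
          · exact hm
          · exact ha.2.2 c hc
      refine (Finset.sum_le_sum_of_subset_of_nonneg hsub fun a _ _ => hμ a).trans ?_
      have := Finset.sum_union_inter (s₁ := F.filter (fun a => ok a ∧ ∀ c ∈ b :: l, ¬ meets a c))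
        (s₂ := F.filter (fun a => meets a b)) (f := μ)
      have h0 : 0 ≤ ∑ a ∈ F.filter (fun a => ok a ∧ ∀ c ∈ b :: l, ¬ meets a c) ∩
        F.filter (fun a => meets a b), μ a := Finset.sum_nonneg fun a _ => hμ a
      linarith
    linarith

/-- potential for hitting `F` -/
theorem sup_hit {α : Type} {GG : Finset α} {μ : α → ℝ} (hμ : ∀ a, 0 ≤ μ a) (ok : α → Prop) (meets : α → α → Prop) (F : Finset α) (hF : F ⊆ GG)
    (g : α → ℝ) (mF b q : ℝ) (hmF : mF = ∑ a ∈ F, μ a) (hg0 : ∀ a, 0 ≤ g a)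
    (hg : ∀ b, mF * g b = ∑ a ∈ F.filter (fun a => meets a b), μ a)
    (hb : ∑ a ∈ F.filter (fun a => ¬ ok a), μ a ≤ b) (hq1 : q ≤ 1)
    (hq : q ≤ mF - b - mF / 8) :
    Sup GG μ (fun R l => if (l.map g).sum ≤ 1 / 8 ∧ ∀ D ∈ acc ok meets l, D ∉ F then (1 - q) ^ R
      else 0) := by
  intro R l _
  have hpR : 0 ≤ (1 - q) ^ R := pow_nonneg (by linarith) R
  by_cases hcond : (l.map g).sum ≤ 1 / 8 ∧ ∀ D ∈ acc ok meets l, D ∉ F
  · show ∑ a ∈ GG, μ a * (if ((a :: l).map g).sum ≤ 1 / 8 ∧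
        ∀ D ∈ acc ok meets (a :: l), D ∉ F then (1 - q) ^ R else 0) +
      (1 - ∑ a ∈ GG, μ a) * (if (l.map g).sum ≤ 1 / 8 ∧ ∀ D ∈ acc ok meets l, D ∉ F
        then (1 - q) ^ R else 0) ≤ if (l.map g).sum ≤ 1 / 8 ∧ ∀ D ∈ acc ok meets l, D ∉ F
        then (1 - q) ^ (R + 1) else 0
    rw [if_pos hcond, if_pos hcond]
    set Gd := F.filter (fun a => ok a ∧ ∀ b ∈ l, ¬ meets a b) with hGd
    have hGdsub : Gd ⊆ GG := (Finset.filter_subset _ _).trans hF
    have key : ∀ a ∈ GG, μ a * (if ((a :: l).map g).sum ≤ 1 / 8 ∧ ∀ D ∈ acc ok meets (a :: l), D ∉ F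
        then (1 - q) ^ R else 0) ≤ (if a ∈ Gd then 0 else μ a) * (1 - q) ^ R := by
      intro a _
      by_cases ha : a ∈ Gd
      · have haF : a ∈ F := (Finset.mem_filter.mp ha).1
        have ha2 := (Finset.mem_filter.mp ha).2
        have hmem : a ∈ acc ok meets (a :: l) := by
          unfold acc
          rw [if_pos ha2]
          exact Finset.mem_insert_self _ _
        have hn : ¬ (((a :: l).map g).sum ≤ 1 / 8 ∧ ∀ D ∈ acc ok meets (a :: l), D ∉ F) :=
          fun h => h.2 a hmem haF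
        rw [if_neg hn, if_pos ha]
        simp
      · rw [if_neg ha]
        apply mul_le_mul_of_nonneg_left _ (hμ a)
        split_ifs
        · exact le_refl _
        · exact hpR
    have h1 := Finset.sum_le_sum key
    rw [← Finset.sum_mul] at h1
    have h2 : ∑ a ∈ GG, (if a ∈ Gd then 0 else μ a) = ∑ a ∈ GG, μ a - ∑ a ∈ Gd, μ a := by
      have e1 : ∑ a ∈ GG, (if a ∈ Gd then 0 else μ a) =
          ∑ a ∈ GG, (μ a - if a ∈ Gd then μ a else 0) := by
        apply Finset.sum_congr rfl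
        intro a _
        split_ifs <;> simp
      rw [e1, Finset.sum_sub_distrib, ← Finset.sum_filter]
      congr 2
      ext a
      rw [Finset.mem_filter]
      exact ⟨fun h => h.2, fun h => ⟨hGdsub h, h⟩⟩
    have h3 := union_bound F μ hμ ok meets l
    have h4 : (l.map fun b => ∑ a ∈ F.filter (fun a => meets a b), μ a).sum = mF * (l.map g).sum := by
      rw [← List.sum_map_mul_left]
      congr 1
      apply List.map_congr_left
      intro c _
      exact (hg c).symm
    have hmF0 : 0 ≤ mF := by rw [hmF]; exact Finset.sum_nonneg fun a _ => hμ a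
    have h5 : mF * (l.map g).sum ≤ mF * (1 / 8) := mul_le_mul_of_nonneg_left hcond.1 hmF0
    have h6 : q ≤ ∑ a ∈ Gd, μ a := by
      rw [h4, ← hmF] at h3
      linarith
    rw [h2] at h1
    have h7 : (1 - q) ^ (R + 1) = (1 - q) * (1 - q) ^ R := by rw [pow_succ]; ring
    rw [h7]
    have h8 : (1 - ∑ a ∈ Gd, μ a) * (1 - q) ^ R ≤ (1 - q) * (1 - q) ^ R :=
      mul_le_mul_of_nonneg_right (by linarith) hpR
    nlinarith
  · have hz : ∀ a ∈ GG, μ a * (if ((a :: l).map g).sum ≤ 1 / 8 ∧
        ∀ D ∈ acc ok meets (a :: l), D ∉ F then (1 - q) ^ R else 0) = 0 := by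
      intro a _
      have hn : ¬ (((a :: l).map g).sum ≤ 1 / 8 ∧ ∀ D ∈ acc ok meets (a :: l), D ∉ F) := by
        intro h
        apply hcond
        refine ⟨?_, fun D hD => h.2 D (acc_mono ok meets a l hD)⟩
        have := h.1
        rw [List.map_cons, List.sum_cons] at this
        linarith [hg0 a]
      rw [if_neg hn, mul_zero]
    show ∑ a ∈ GG, μ a * (if ((a :: l).map g).sum ≤ 1 / 8 ∧
        ∀ D ∈ acc ok meets (a :: l), D ∉ F then (1 - q) ^ R else 0) +
      (1 - ∑ a ∈ GG, μ a) * (if (l.map g).sum ≤ 1 / 8 ∧ ∀ D ∈ acc ok meets l, D ∉ F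
        then (1 - q) ^ R else 0) ≤ if (l.map g).sum ≤ 1 / 8 ∧ ∀ D ∈ acc ok meets l, D ∉ F
        then (1 - q) ^ (R + 1) else 0
    rw [Finset.sum_eq_zero hz, if_neg hcond, if_neg hcond]
    simp

/-- potential for pairs -/
theorem sup_pair {α : Type} {GG : Finset α} {μ : α → ℝ} (T : α → Prop) (p : ℝ) (hp0 : 0 ≤ p)
    (hp : ∑ a ∈ GG.filter T, μ a ≤ p) :
    Sup GG μ (fun R l => ((l.filter (fun a => decide (T a))).length : ℝ) *
        (((l.filter (fun a => decide (T a))).length : ℝ) - 1) +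
      2 * ((l.filter (fun a => decide (T a))).length : ℝ) * (R * p) + (R * p) ^ 2) := by
  intro R l _
  set m : ℝ := ((l.filter (fun a => decide (T a))).length : ℝ) with hm
  have hm0 : 0 ≤ m := Nat.cast_nonneg _
  have hR0 : (0 : ℝ) ≤ R := Nat.cast_nonneg _
  have key : ∀ a ∈ GG, μ a * (((((a :: l).filter (fun a => decide (T a))).length : ℝ) *
        ((((a :: l).filter (fun a => decide (T a))).length : ℝ) - 1) +
      2 * (((a :: l).filter (fun a => decide (T a))).length : ℝ) * (R * p) + (R * p) ^ 2)) =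
      μ a * (m * (m - 1) + 2 * m * (R * p) + (R * p) ^ 2) +
        (if T a then μ a else 0) * (2 * m + 2 * (R * p)) := by
    intro a _
    by_cases ha : T a
    · have e : (((a :: l).filter (fun a => decide (T a))).length : ℝ) = m + 1 := by
        rw [List.filter_cons_of_pos (by simpa using ha), List.length_cons]
        push_cast
        rfl
      rw [e, if_pos ha]
      ring
    · have e : (((a :: l).filter (fun a => decide (T a))).length : ℝ) = m := by
        rw [List.filter_cons_of_neg (by simpa using ha)]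
      rw [e, if_neg ha]
      ring
  show ∑ a ∈ GG, μ a * (((((a :: l).filter (fun a => decide (T a))).length : ℝ) *
        ((((a :: l).filter (fun a => decide (T a))).length : ℝ) - 1) +
      2 * (((a :: l).filter (fun a => decide (T a))).length : ℝ) * (R * p) + (R * p) ^ 2)) +
      (1 - ∑ a ∈ GG, μ a) * (m * (m - 1) + 2 * m * (R * p) + (R * p) ^ 2) ≤
      m * (m - 1) + 2 * m * (((R + 1 : ℕ) : ℝ) * p) + (((R + 1 : ℕ) : ℝ) * p) ^ 2
  rw [Finset.sum_congr rfl key, Finset.sum_add_distrib, ← Finset.sum_mul, ← Finset.sum_mul,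
    ← Finset.sum_filter]
  have h1 : (∑ a ∈ GG.filter T, μ a) * (2 * m + 2 * (R * p)) ≤ p * (2 * m + 2 * (R * p)) :=
    mul_le_mul_of_nonneg_right hp (by positivity)
  push_cast
  nlinarith [sq_nonneg p]

/-- the potential of `sup_exp` and `sup_hit` together -/
noncomputable def hitPot {α : Type} (ok : α → Prop) (meets : α → α → Prop) (F : Finset α) (g : α → ℝ)
    (γ p q : ℝ) (R : ℕ) (l : List α) : ℝ :=
  Real.exp (((l.map g).sum - 1 / 8) / γ) * (1 + 2 * (p / γ)) ^ R +
    if (l.map g).sum ≤ 1 / 8 ∧ ∀ D ∈ acc ok meets l, D ∉ F then (1 - q) ^ R else 0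

/-- the potential of `sup_pair` -/
noncomputable def pairPot {α : Type} (T : α → Prop) (p : ℝ) (R : ℕ) (l : List α) : ℝ :=
  ((l.filter (fun a => decide (T a))).length : ℝ) *
        (((l.filter (fun a => decide (T a))).length : ℝ) - 1) +
      2 * ((l.filter (fun a => decide (T a))).length : ℝ) * (R * p) + (R * p) ^ 2

theorem sup_hitPot {α : Type} {GG : Finset α} {μ : α → ℝ} (hμ : ∀ a, 0 ≤ μ a) (ok : α → Prop)
    (meets : α → α → Prop) (F : Finset α) (hF : F ⊆ GG) (g : α → ℝ) (γ p mF b q : ℝ)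
    (hγ : 0 < γ) (hg1 : ∀ a ∈ GG, g a ≤ γ) (hp : ∑ a ∈ GG, μ a * g a ≤ p)
    (hmF : mF = ∑ a ∈ F, μ a) (hg0 : ∀ a, 0 ≤ g a)
    (hg : ∀ b, mF * g b = ∑ a ∈ F.filter (fun a => meets a b), μ a)
    (hb : ∑ a ∈ F.filter (fun a => ¬ ok a), μ a ≤ b) (hq1 : q ≤ 1)
    (hq : q ≤ mF - b - mF / 8) : Sup GG μ (hitPot ok meets F g γ p q) :=
  (sup_exp hμ g γ p hγ hg0 hg1 hp).add (sup_hit hμ ok meets F hF g mF b q hmF hg0 hg hb hq1 hq)

theorem sup_pairPot {α : Type} {GG : Finset α} {μ : α → ℝ} (T : α → Prop) (p : ℝ) (hp0 : 0 ≤ p)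
    (hp : ∑ a ∈ GG.filter T, μ a ≤ p) : Sup GG μ (pairPot T p) :=
  sup_pair T p hp0 hp

theorem hitPot_nil {α : Type} (ok : α → Prop) (meets : α → α → Prop) (F : Finset α) (g : α → ℝ)
    (γ p q : ℝ) (R : ℕ) : hitPot ok meets F g γ p q R [] =
      Real.exp ((0 - 1 / 8) / γ) * (1 + 2 * (p / γ)) ^ R + (1 - q) ^ R := by
  unfold hitPot
  rw [if_pos]
  · simp
  · refine ⟨by simp, ?_⟩
    intro D hD
    simp [acc] at hD

theorem hitPot_nonneg {α : Type} (ok : α → Prop) (meets : α → α → Prop) (F : Finset α) (g : α → ℝ)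
    (γ p q : ℝ) (l : List α) : 0 ≤ hitPot ok meets F g γ p q 0 l := by
  unfold hitPot
  have := Real.exp_pos (((l.map g).sum - 1 / 8) / γ)
  split_ifs <;> simp <;> linarith

theorem hitPot_hit {α : Type} (ok : α → Prop) (meets : α → α → Prop) (F : Finset α) (g : α → ℝ)
    (γ p q : ℝ) (hγ : 0 < γ) (l : List α) (h : hitPot ok meets F g γ p q 0 l < 1) :
    ∃ D ∈ acc ok meets l, D ∈ F := by
  by_contra hcon
  push Not at hcon
  unfold hitPot at h
  have h6 := Real.exp_pos (((l.map g).sum - 1 / 8) / γ)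
  by_cases hS : (l.map g).sum ≤ 1 / 8
  · rw [if_pos ⟨hS, hcon⟩] at h
    simp only [pow_zero, mul_one] at h
    linarith
  · have h7 : 0 ≤ ((l.map g).sum - 1 / 8) / γ := by
      apply div_nonneg _ hγ.le
      linarith
    have h8 := Real.one_le_exp h7
    rw [if_neg (fun h => hS h.1)] at h
    simp only [pow_zero, mul_one, add_zero] at h
    linarith

theorem pairPot_nil {α : Type} (T : α → Prop) (p : ℝ) (R : ℕ) :
    pairPot T p R [] = (R * p) ^ 2 := by
  unfold pairPot
  simp

theorem pairPot_nonneg {α : Type} (T : α → Prop) (p : ℝ) (l : List α) : 0 ≤ pairPot T p 0 l := by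
  unfold pairPot
  simp only [Nat.cast_zero, zero_mul, mul_zero, add_zero, ne_eq, OfNat.ofNat_ne_zero,
    not_false_eq_true, zero_pow]
  generalize (l.filter (fun a => decide (T a))).length = m
  rcases Nat.eq_zero_or_pos m with h | h
  · rw [h]; simp
  · have : (1 : ℝ) ≤ m := by exact_mod_cast h
    nlinarith

theorem pairPot_one {α : Type} (T : α → Prop) (p : ℝ) (l : List α) (h : pairPot T p 0 l < 1)
    (a b : α) (ha : a ∈ l) (hb : b ∈ l) (hTa : T a) (hTb : T b) : a = b := by
  unfold pairPot at h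
  simp only [Nat.cast_zero, zero_mul, mul_zero, add_zero, ne_eq, OfNat.ofNat_ne_zero,
    not_false_eq_true, zero_pow] at h
  have hin : a ∈ l.filter (fun a => decide (T a)) := List.mem_filter.mpr ⟨ha, decide_eq_true hTa⟩
  have hin' : b ∈ l.filter (fun a => decide (T a)) := List.mem_filter.mpr ⟨hb, decide_eq_true hTb⟩
  have h7 : (l.filter (fun a => decide (T a))).length ≤ 1 := by
    by_contra hcon
    have h8 : (2 : ℝ) ≤ ((l.filter (fun a => decide (T a))).length : ℝ) := by
      have : 2 ≤ (l.filter (fun a => decide (T a))).length := by omega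
      exact_mod_cast this
    nlinarith
  generalize l.filter (fun a => decide (T a)) = l' at h7 hin hin'
  match l', h7, hin, hin' with
  | [], _, h, _ => exact absurd h (List.not_mem_nil)
  | [c], _, h, h' =>
    rw [List.mem_singleton] at h h'
    rw [h, h']
  | c :: d :: l'', h, _, _ => simp at h

end Pool.Agent.Lib.MP_fce888_co.C47
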