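import Pool.Agent.Lib.MP_fce888_co.C.Ifc
import Pool.Agent.Lib.MP_fce888_co.C47.Pot

set_option autoImplicit false

/-!
# MP_fce888_co, section 4.7: the planted circuits
-/

namespace Pool.Agent.Lib.MP_fce888_co.C47

open Finset Pool.Agent.Lib.MP_fce888_co
open scoped Classical

private theorem numerics (n L s K : ℕ) (Λ LT : ℝ) (Jc Ic : ℕ) (hJ : Jc ≤ K * n) (hI : Ic ≤ s)
    (hΛ : 1 ≤ Λ) (hL : 1 ≤ L) (hlam : 4 ≤ lam n) (hK : 100 * K ≤ n)
    (h2 : 1000 * L * Λ * lam n ≤ LT) (h3 : (s : ℝ) * (100 * L * Λ * lam n) ^ 2 ≤ LT ^ 2)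
    (hLTn : LT ≤ n) :
    ∃ Np : ℕ, (Jc : ℝ) * (Real.exp ((0 - 1 / 8) / (2 * L * Λ / LT)) *
        (1 + 2 * ((2 * L * Λ / n) / (2 * L * Λ / LT))) ^ Np + (1 - LT / (2 * n)) ^ Np) +
      Ic * (Np * (2 * L * Λ / n)) ^ 2 < 1 := by
  obtain ⟨T, hT⟩ : ∃ T : ℝ, T = lam n := ⟨_, rfl⟩
  have hT4 : 4 ≤ T := by rw [hT]; exact_mod_cast hlam
  have hLR : (1 : ℝ) ≤ L := by exact_mod_cast hL
  rw [← hT] at h2 h3
  have hLΛ : 1 ≤ (L : ℝ) * Λ := by nlinarith
  have hLT4 : 4000 ≤ LT := by nlinarith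
  have hLT0 : 0 < LT := by linarith
  have hn0 : (0 : ℝ) < n := by linarith
  refine ⟨⌈8 * n * T / LT⌉₊, ?_⟩
  set Np := ⌈8 * n * T / LT⌉₊ with hNp
  have hb1 : 8 * n * T / LT ≤ Np := Nat.le_ceil _
  have hb2 : (Np : ℝ) ≤ 9 * (n * T / LT) := by
    have h := Nat.ceil_lt_add_one (a := 8 * n * T / LT) (by positivity)
    have h1 : 1 ≤ n * T / LT := by
      rw [le_div_iff₀ hLT0]
      nlinarith
    have h4 : 8 * n * T / LT = 8 * (n * T / LT) := by ring
    rw [← hNp] at h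
    linarith
  have hNp0 : (0 : ℝ) ≤ Np := Nat.cast_nonneg _
  have e1 : (2 * L * Λ / n) / (2 * L * Λ / LT) = LT / n := by
    have : 2 * (L : ℝ) * Λ ≠ 0 := by positivity
    field_simp
  rw [e1]
  -- first exponential
  have hA : Real.exp ((0 - 1 / 8) / (2 * L * Λ / LT)) * (1 + 2 * (LT / n)) ^ Np ≤
      Real.exp (-(4 * T)) := by
    have ha : (1 + 2 * (LT / n)) ^ Np ≤ Real.exp (18 * T) := by
      have h0 : 0 ≤ LT / n := by positivity
      have hx : 1 + 2 * (LT / n) ≤ Real.exp (2 * (LT / n)) := by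
        have := Real.add_one_le_exp (2 * (LT / n))
        linarith
      calc (1 + 2 * (LT / n)) ^ Np ≤ (Real.exp (2 * (LT / n))) ^ Np :=
            pow_le_pow_left₀ (by linarith) hx _
        _ = Real.exp (Np * (2 * (LT / n))) := by rw [← Real.exp_nat_mul]
        _ ≤ Real.exp (18 * T) := by
            apply Real.exp_le_exp.mpr
            have : (Np : ℝ) * (2 * (LT / n)) ≤ 9 * (n * T / LT) * (2 * (LT / n)) :=
              mul_le_mul_of_nonneg_right hb2 (by positivity)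
            refine this.trans (le_of_eq ?_)
            field_simp
            ring
    have hb : (0 - 1 / 8) / (2 * L * Λ / LT) ≤ -(22 * T) := by
      have hpos : 0 < 2 * L * Λ / LT := by positivity
      rw [div_le_iff₀ hpos]
      have : 22 * T * (2 * L * Λ / LT) ≤ 1 / 8 := by
        rw [← mul_div_assoc, div_le_iff₀ hLT0]
        nlinarith
      linarith
    calc Real.exp ((0 - 1 / 8) / (2 * L * Λ / LT)) * (1 + 2 * (LT / n)) ^ Np
        ≤ Real.exp (-(22 * T)) * Real.exp (18 * T) :=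
          mul_le_mul (Real.exp_le_exp.mpr hb) ha (by positivity) (Real.exp_pos _).le
      _ = Real.exp (-(4 * T)) := by rw [← Real.exp_add]; congr 1; ring
  have hB : (1 - LT / (2 * n)) ^ Np ≤ Real.exp (-(4 * T)) := by
    have hq1 : LT / (2 * n) ≤ 1 := by
      rw [div_le_one (by positivity)]
      linarith
    calc (1 - LT / (2 * n)) ^ Np ≤ (Real.exp (-(LT / (2 * n)))) ^ Np :=
          pow_le_pow_left₀ (by linarith) (Real.one_sub_le_exp_neg _) _
      _ = Real.exp (Np * (-(LT / (2 * n)))) := by rw [← Real.exp_nat_mul]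
      _ ≤ Real.exp (-(4 * T)) := by
          apply Real.exp_le_exp.mpr
          have : 8 * n * T / LT * (LT / (2 * n)) ≤ Np * (LT / (2 * n)) :=
            mul_le_mul_of_nonneg_right hb1 (by positivity)
          have e : 8 * n * T / LT * (LT / (2 * n)) = 4 * T := by
            field_simp
            ring
          linarith
  have hE : Real.exp (-(4 * T)) ≤ (1 / 16 : ℝ) ^ lam n := by
    have h16 : Real.exp (-4) ≤ 1 / 16 := by
      have h1 : (2 : ℝ) ≤ Real.exp 1 := by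
        have := Real.exp_one_gt_d9
        linarith
      have h4 : (16 : ℝ) ≤ Real.exp 4 := by
        have : Real.exp 4 = Real.exp 1 ^ 4 := by
          rw [← Real.exp_nat_mul]
          norm_num
        rw [this]
        calc (16 : ℝ) = 2 ^ 4 := by norm_num
          _ ≤ Real.exp 1 ^ 4 := pow_le_pow_left₀ (by norm_num) h1 4
      rw [Real.exp_neg, ← one_div]
      exact one_div_le_one_div_of_le (by norm_num) h4
    have e : Real.exp (-(4 * T)) = Real.exp (-4) ^ lam n := by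
      rw [← Real.exp_nat_mul, hT]
      congr 1
      ring
    rw [e]
    exact pow_le_pow_left₀ (Real.exp_pos _).le h16 _
  have hJc : (Jc : ℝ) ≤ 4 ^ lam n / 25 := by
    have hn2 : (n : ℝ) ≤ 2 * 2 ^ lam n := by
      have : n < 2 ^ (lam n + 1) := Nat.lt_pow_succ_log_self (by norm_num) n
      have h' : (n : ℝ) < 2 ^ (lam n + 1) := by exact_mod_cast this
      rw [pow_succ] at h'
      linarith
    have h1 : (Jc : ℝ) ≤ K * n := by exact_mod_cast hJ
    have h4 : 100 * (K : ℝ) ≤ n := by exact_mod_cast hK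
    have h5 : (n : ℝ) * n ≤ (2 * 2 ^ lam n) * (2 * 2 ^ lam n) :=
      mul_le_mul hn2 hn2 hn0.le (by positivity)
    have h6 : (4 : ℝ) ^ lam n = 2 ^ lam n * 2 ^ lam n := by
      rw [← mul_pow]
      norm_num
    rw [h6]
    nlinarith
  have hfin1 : (Jc : ℝ) * (Real.exp ((0 - 1 / 8) / (2 * L * Λ / LT)) * (1 + 2 * (LT / n)) ^ Np +
      (1 - LT / (2 * n)) ^ Np) ≤ 2 / 25 := by
    have hs : Real.exp ((0 - 1 / 8) / (2 * L * Λ / LT)) * (1 + 2 * (LT / n)) ^ Np +
      (1 - LT / (2 * n)) ^ Np ≤ 2 * (1 / 16 : ℝ) ^ lam n := by linarith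
    calc (Jc : ℝ) * (Real.exp ((0 - 1 / 8) / (2 * L * Λ / LT)) * (1 + 2 * (LT / n)) ^ Np +
          (1 - LT / (2 * n)) ^ Np) ≤ Jc * (2 * (1 / 16 : ℝ) ^ lam n) :=
          mul_le_mul_of_nonneg_left hs (Nat.cast_nonneg _)
      _ ≤ (4 ^ lam n / 25) * (2 * (1 / 16 : ℝ) ^ lam n) :=
          mul_le_mul_of_nonneg_right hJc (by positivity)
      _ = 2 / 25 * (1 / 4 : ℝ) ^ lam n := by
          have : (4 : ℝ) ^ lam n * (1 / 16) ^ lam n = (1 / 4) ^ lam n := by
            rw [← mul_pow]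
            norm_num
          rw [← this]
          ring
      _ ≤ 2 / 25 := by
          have : (1 / 4 : ℝ) ^ lam n ≤ 1 := pow_le_one₀ (by norm_num) (by norm_num)
          linarith
  have hfin2 : (Ic : ℝ) * (Np * (2 * L * Λ / n)) ^ 2 ≤ 1 / 25 := by
    have hIc : (Ic : ℝ) ≤ s := by exact_mod_cast hI
    have h1 : (Np : ℝ) * (2 * L * Λ / n) ≤ 18 * L * Λ * T / LT := by
      have : (Np : ℝ) * (2 * L * Λ / n) ≤ 9 * (n * T / LT) * (2 * L * Λ / n) :=
        mul_le_mul_of_nonneg_right hb2 (by positivity)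
      refine this.trans (le_of_eq ?_)
      field_simp
      ring
    have h0 : 0 ≤ (Np : ℝ) * (2 * L * Λ / n) := by positivity
    have h4 : ((Np : ℝ) * (2 * L * Λ / n)) ^ 2 ≤ (18 * L * Λ * T / LT) ^ 2 :=
      pow_le_pow_left₀ h0 h1 2
    have h5 : (s : ℝ) * (18 * L * Λ * T / LT) ^ 2 ≤ 1 / 25 := by
      rw [div_pow, ← mul_div_assoc, div_le_iff₀ (by positivity)]
      nlinarith
    calc (Ic : ℝ) * (Np * (2 * L * Λ / n)) ^ 2 ≤ s * (18 * L * Λ * T / LT) ^ 2 :=
          mul_le_mul hIc h4 (by positivity) (Nat.cast_nonneg _)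
      _ ≤ 1 / 25 := h5
  linarith

private theorem cover_bound {α β : Type} (S : Finset α) (μ : α → ℝ) (hμ : ∀ a, 0 ≤ μ a)
    (P : α → Prop) [DecidablePred P] (B : Finset β) (Q : β → α → Prop) [∀ b, DecidablePred (Q b)] (c : ℝ)
    (hP : ∀ a ∈ S, P a → ∃ b ∈ B, Q b a) (hQ : ∀ b ∈ B, ∑ a ∈ S.filter (Q b), μ a ≤ c) :
    ∑ a ∈ S.filter P, μ a ≤ B.card * c := by
  have h1 : ∑ a ∈ S.filter P, μ a ≤ ∑ a ∈ S, ∑ b ∈ B, (if Q b a then μ a else 0) := by
    rw [Finset.sum_filter]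
    apply Finset.sum_le_sum
    intro a ha
    split_ifs with hp
    · obtain ⟨b, hb, hq⟩ := hP a ha hp
      have : (if Q b a then μ a else 0) ≤ ∑ b ∈ B, (if Q b a then μ a else 0) :=
        Finset.single_le_sum (f := fun b => if Q b a then μ a else 0) (fun b _ => by
          show 0 ≤ (if Q b a then μ a else 0)
          split_ifs
          · exact hμ a
          · exact le_refl _) hb
      rwa [if_pos hq] at this
    · apply Finset.sum_nonneg
      intro b _
      split_ifs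
      · exact hμ a
      · exact le_refl _
  rw [Finset.sum_comm] at h1
  refine h1.trans ?_
  rw [← nsmul_eq_mul, ← Finset.sum_const]
  apply Finset.sum_le_sum
  intro b hb
  rw [← Finset.sum_filter]
  exact hQ b hb

private theorem sum_or_le {α : Type} (S : Finset α) (μ : α → ℝ) (hμ : ∀ a, 0 ≤ μ a)
    (P Q R : α → Prop) [DecidablePred P] [DecidablePred Q] [DecidablePred R]
    (h : ∀ a ∈ S, P a → Q a ∨ R a) :
    ∑ a ∈ S.filter P, μ a ≤ ∑ a ∈ S.filter Q, μ a + ∑ a ∈ S.filter R, μ a := by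
  rw [Finset.sum_filter, Finset.sum_filter, Finset.sum_filter, ← Finset.sum_add_distrib]
  apply Finset.sum_le_sum
  intro a ha
  have h0 := hμ a
  by_cases hp : P a
  · rcases h a ha hp with hq | hr
    · rw [if_pos hp, if_pos hq]
      split_ifs <;> linarith
    · rw [if_pos hp, if_pos hr]
      split_ifs <;> linarith
  · rw [if_neg hp]
    split_ifs <;> linarith

private theorem vs_card {V : Type} [Fintype V] {G : SimpleGraph V} {L r : ℕ} {D : Finset (Sym2 V)}
    (h : GoodCirc G L r D) : (vs D).card ≤ 2 * L := by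
  obtain ⟨m, γ, ⟨h3, hinj, hadj, hD⟩, -, h2, -⟩ := h.cyc
  have hsub : vs D ⊆ (range m).image fun i : ℕ => γ (i : ℤ) := by
    intro v hv
    simp only [vs, mem_filter, mem_univ, true_and] at hv
    obtain ⟨g, hg, hvg⟩ := hv
    rw [hD] at hg
    simp only [mem_image, mem_range] at hg ⊢
    obtain ⟨i, hi, rfl⟩ := hg
    rcases Sym2.mem_iff.1 hvg with h | h
    · exact ⟨i, hi, h.symm⟩
    · by_cases hi' : i + 1 = m
      · refine ⟨0, by omega, ?_⟩
        rw [h, hinj]
        subst hi'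
        refine ⟨-1, ?_⟩
        push_cast
        ring
      · refine ⟨i + 1, by omega, ?_⟩
        rw [h]
        push_cast
        rfl
  refine (card_le_card hsub).trans (card_image_le.trans ?_)
  rw [card_range]
  exact h2

/-- 4.7 -/
theorem plant : PlantStatement := by
  intro V _ G _ _ L r r4 s K Λ LT GG μ Th C C1 C2 e1 e2 tri hMu X I D U hD hI hU Y J F hJ hFG hFm hΛ hL
    hr4 hlam hK h1 h2 h3
  rcases J.eq_empty_or_nonempty with hJe | hJne
  · refine ⟨∅, ⟨by simp, by simp, by simp, by simp, by simp, by simp⟩, ?_⟩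
    rw [hJe]
    simp
  have hμ := hMu.nonneg
  obtain ⟨n, hn⟩ : ∃ n : ℕ, n = Fintype.card V := ⟨_, rfl⟩
  have hlawM := hMu.lawM
  rw [← hn] at hlam hK h2 h3 hJ hFm hlawM
  have hnpos : 0 < n := by
    rcases Nat.eq_zero_or_pos n with h | h
    · rw [h] at hlam
      simp [lam] at hlam
    · exact h
  have hnR : (0 : ℝ) < n := by exact_mod_cast hnpos
  have hLR : (1 : ℝ) ≤ L := by exact_mod_cast hL
  have hlamR : (4 : ℝ) ≤ lam n := by exact_mod_cast hlam
  have hLΛ : 1 ≤ (L : ℝ) * Λ := by nlinarith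
  have hLT4 : 4000 ≤ LT := by nlinarith
  have hLT0 : 0 < LT := by linarith
  have hLTn : LT ≤ n := by
    obtain ⟨y, hy⟩ := hJne
    have h4 := hFm y hy
    have h5 : ∑ D ∈ F y, μ D ≤ ∑ D ∈ GG, μ D :=
      Finset.sum_le_sum_of_subset_of_nonneg (hFG y hy) fun D _ _ => hμ D
    have h6 : LT / n ≤ 1 := by linarith [hMu.mass]
    rwa [div_le_one hnR] at h6
  -- constants
  obtain ⟨p, hp⟩ : ∃ p : ℝ, p = 2 * L * Λ / n := ⟨_, rfl⟩
  obtain ⟨γ, hγ⟩ : ∃ γ : ℝ, γ = 2 * L * Λ / LT := ⟨_, rfl⟩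
  have hp0 : 0 < p := by rw [hp]; positivity
  have hγ0 : 0 < γ := by rw [hγ]; positivity
  obtain ⟨meets, hmeets⟩ : ∃ meets : Finset (Sym2 V) → Finset (Sym2 V) → Prop,
      ∀ a b, meets a b ↔ ¬ Disjoint (vs a) (vs b) := ⟨_, fun _ _ => Iff.rfl⟩
  have hmsymm : ∀ a b, meets a b → meets b a := by
    intro a b h
    rw [hmeets] at h ⊢
    exact fun h' => h h'.symm
  obtain ⟨ok, hok⟩ : ∃ ok : Finset (Sym2 V) → Prop, ∀ a, ok a ↔ (e1 ∉ a ∧ e2 ∉ a ∧
    ∀ u ∈ vs a, ∀ u' ∈ vs a, u ∈ U → u' ∈ U → G.dist u u' ≤ r4) := ⟨_, fun _ => Iff.rfl⟩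
  obtain ⟨bad, hbad⟩ : ∃ bad : Finset (Sym2 V) → Prop, ∀ a, bad a ↔
    (∃ u ∈ vs a, ∃ u' ∈ vs a, u ∈ U ∧ u' ∈ U ∧ r4 < G.dist u u') := ⟨_, fun _ => Iff.rfl⟩
  -- one vertex
  have hvert : ∀ v : V, ∑ D ∈ GG.filter (fun D => v ∈ vs D), μ D ≤ Λ / n := by
    intro v
    have h := hlawM v v
    rw [SimpleGraph.dist_self, Nat.zero_min, Nat.zero_div, pow_zero, mul_one] at h
    have e : GG.filter (fun D => v ∈ vs D ∧ v ∈ vs D) = GG.filter (fun D => v ∈ vs D) := by
      apply Finset.filter_congr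
      intro D _
      exact and_self_iff
    rwa [e] at h
  have hmeet : ∀ b ∈ GG, ∑ a ∈ GG.filter (fun a => meets a b), μ a ≤ p := by
    intro b hb
    have hc := vs_card (tri.good b hb)
    have h4 := cover_bound GG μ hμ (fun a => meets a b) (vs b) (fun v a => v ∈ vs a) (Λ / n) (by
      intro a _ hab
      have hab' : ¬ Disjoint (vs a) (vs b) := (hmeets a b).mp hab
      rw [Finset.not_disjoint_iff] at hab'
      obtain ⟨v, hv1, hv2⟩ := hab'
      exact ⟨v, hv2, hv1⟩) (fun v _ => hvert v)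
    have h5 : ((vs b).card : ℝ) ≤ 2 * L := by exact_mod_cast hc
    have h6 : ((vs b).card : ℝ) * (Λ / n) ≤ 2 * L * (Λ / n) :=
      mul_le_mul_of_nonneg_right h5 (by positivity)
    rw [hp]
    have h7 : 2 * (L : ℝ) * (Λ / n) = 2 * L * Λ / n := by ring
    rw [← h7]
    exact h4.trans h6
  -- not ok
  have hvs : ∀ (e : Sym2 V) (a : Finset (Sym2 V)), e ∈ a → e.out.1 ∈ vs a := by
    intro e a he
    simp only [vs, mem_filter, mem_univ, true_and]
    exact ⟨e, he, Sym2.out_fst_mem e⟩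
  have hedge : ∀ e : Sym2 V, ∑ a ∈ GG.filter (fun a => e ∈ a), μ a ≤ Λ / n := by
    intro e
    refine le_trans ?_ (hvert e.out.1)
    apply Finset.sum_le_sum_of_subset_of_nonneg
    · intro a ha
      rw [Finset.mem_filter] at ha ⊢
      exact ⟨ha.1, hvs e a ha.2⟩
    · intro a _ _
      exact hμ a
  have hnok : ∑ a ∈ GG.filter (fun a => ¬ ok a), μ a ≤ LT / 8 / n := by
    have hs1 := sum_or_le GG μ hμ (fun a => ¬ ok a) (fun a => e1 ∈ a)
      (fun a => e2 ∈ a ∨ bad a) (by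
        intro a _ ha
        by_contra hcon
        apply ha
        rw [not_or, not_or] at hcon
        rw [hok]
        refine ⟨hcon.1, hcon.2.1, ?_⟩
        intro u hu u' hu' huU hu'U
        by_contra hlt
        exact hcon.2.2 ((hbad a).mpr ⟨u, hu, u', hu', huU, hu'U, by omega⟩))
    have hs2 := sum_or_le GG μ hμ (fun a => e2 ∈ a ∨ bad a) (fun a => e2 ∈ a) bad (fun a _ h => h)
    have hs3 := cover_bound GG μ hμ bad
      ((U ×ˢ U).filter fun q => r4 < G.dist q.1 q.2)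
      (fun q a => q.1 ∈ vs a ∧ q.2 ∈ vs a) (Λ * (1 / 2) ^ ((r4 + 1) / 2) / n) (by
        intro a _ hb
        obtain ⟨u, hu, u', hu', huU, hu'U, hlt⟩ := (hbad a).mp hb
        exact ⟨(u, u'), Finset.mem_filter.mpr ⟨Finset.mem_product.mpr ⟨huU, hu'U⟩, hlt⟩, hu, hu'⟩) (by
        intro q hq
        have hlt := (Finset.mem_filter.mp hq).2
        refine (hlawM q.1 q.2).trans ?_
        apply div_le_div_of_nonneg_right _ hnR.le
        apply mul_le_mul_of_nonneg_left _ (by linarith)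
        apply pow_le_pow_of_le_one (by norm_num) (by norm_num)
        apply Nat.div_le_div_right
        exact le_min (by omega) (by omega))
    have hc : ((((U ×ˢ U).filter fun q => r4 < G.dist q.1 q.2).card : ℕ) : ℝ) ≤
        ((4 * L + 2 * L * s : ℕ) : ℝ) ^ 2 := by
      have h4 : ((U ×ˢ U).filter fun q => r4 < G.dist q.1 q.2).card ≤ (4 * L + 2 * L * s) ^ 2 := by
        refine (Finset.card_filter_le _ _).trans ?_
        rw [Finset.card_product, sq]
        exact Nat.mul_le_mul hU hU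
      exact_mod_cast h4
    have h5 : ((((U ×ˢ U).filter fun q => r4 < G.dist q.1 q.2).card : ℕ) : ℝ) *
        (Λ * (1 / 2) ^ ((r4 + 1) / 2) / n) ≤
        ((4 * L + 2 * L * s : ℕ) : ℝ) ^ 2 * (Λ * (1 / 2) ^ ((r4 + 1) / 2) / n) :=
      mul_le_mul_of_nonneg_right hc (by positivity)
    have h6 : ((4 * L + 2 * L * s : ℕ) : ℝ) ^ 2 * (Λ * (1 / 2) ^ ((r4 + 1) / 2) / n) + 2 * (Λ / n) ≤
        LT / 8 / n := by
      have e : ((4 * L + 2 * L * s : ℕ) : ℝ) ^ 2 * (Λ * (1 / 2) ^ ((r4 + 1) / 2) / n) + 2 * (Λ / n) =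
          (((4 * L + 2 * L * s : ℕ) : ℝ) ^ 2 * Λ * (1 / 2) ^ ((r4 + 1) / 2) + 2 * Λ) / n := by
        ring
      rw [e]
      exact div_le_div_of_nonneg_right h1 hnR.le
    have h7 := hedge e1
    have h8 := hedge e2
    linarith
  -- the functions `g y`
  obtain ⟨mF, hmF⟩ : ∃ mF : Y → ℝ, mF = fun y => ∑ a ∈ F y, μ a := ⟨_, rfl⟩
  obtain ⟨g, hg⟩ : ∃ g : Y → Finset (Sym2 V) → ℝ,
      g = fun y b => (∑ a ∈ (F y).filter (fun a => meets a b), μ a) / mF y := ⟨_, rfl⟩
  have hmF0 : ∀ y ∈ J, LT / n ≤ mF y := by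
    intro y hy
    rw [hmF]
    exact hFm y hy
  have hLTn0 : 0 < LT / n := by positivity
  have hmFpos : ∀ y ∈ J, 0 < mF y := fun y hy => lt_of_lt_of_le hLTn0 (hmF0 y hy)
  have hmFnn : ∀ y, 0 ≤ mF y := by
    intro y
    rw [hmF]
    exact Finset.sum_nonneg fun a _ => hμ a
  have hg0 : ∀ y b, 0 ≤ g y b := by
    intro y b
    rw [hg]
    exact div_nonneg (Finset.sum_nonneg fun a _ => hμ a) (hmFnn y)
  have hFle : ∀ y ∈ J, ∀ P : Finset (Sym2 V) → Prop,
      ∑ a ∈ (F y).filter P, μ a ≤ ∑ a ∈ GG.filter P, μ a := by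
    intro y hy P
    apply Finset.sum_le_sum_of_subset_of_nonneg
    · exact Finset.filter_subset_filter _ (hFG y hy)
    · intro a _ _
      exact hμ a
  have hpγ : p / (LT / n) = γ := by
    rw [hp, hγ]
    field_simp
  have hg1 : ∀ y ∈ J, ∀ b ∈ GG, g y b ≤ γ := by
    intro y hy b hb
    rw [← hpγ, hg]
    show (∑ a ∈ (F y).filter (fun a => meets a b), μ a) / mF y ≤ p / (LT / n)
    apply div_le_div₀ hp0.le ((hFle y hy _).trans (hmeet b hb)) hLTn0 (hmF0 y hy)
  have hgsum : ∀ y ∈ J, ∑ b ∈ GG, μ b * g y b ≤ p := by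
    intro y hy
    have e : ∑ b ∈ GG, μ b * g y b =
        (∑ a ∈ F y, μ a * ∑ b ∈ GG.filter (fun b => meets b a), μ b) / mF y := by
      rw [hg]
      show ∑ b ∈ GG, μ b * ((∑ a ∈ (F y).filter (fun a => meets a b), μ a) / mF y) = _
      rw [Finset.sum_div]
      simp_rw [← mul_div_assoc, Finset.mul_sum, Finset.sum_filter]
      rw [← Finset.sum_div, ← Finset.sum_div, Finset.sum_comm]
      congr 1
      apply Finset.sum_congr rfl
      intro a _
      apply Finset.sum_congr rfl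
      intro b _
      by_cases hab : meets a b
      · rw [if_pos hab, if_pos (hmsymm a b hab), mul_comm]
      · rw [if_neg hab, if_neg (fun h => hab (hmsymm b a h))]
    rw [e, div_le_iff₀ (hmFpos y hy)]
    calc ∑ a ∈ F y, μ a * ∑ b ∈ GG.filter (fun b => meets b a), μ b
        ≤ ∑ a ∈ F y, μ a * p := by
          apply Finset.sum_le_sum
          intro a ha
          exact mul_le_mul_of_nonneg_left (hmeet a (hFG y hy ha)) (hμ a)
      _ = p * mF y := by rw [← Finset.sum_mul, hmF, mul_comm]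
  -- the potential
  have hSup1 : ∀ y ∈ J, Sup GG μ (hitPot ok meets (F y) (g y) γ p (LT / (2 * n))) := by
    intro y hy
    apply sup_hitPot hμ ok meets (F y) (hFG y hy) (g y) γ p (mF y) (LT / 8 / n) (LT / (2 * n)) hγ0
      (hg1 y hy) (hgsum y hy)
    · rw [hmF]
    · exact hg0 y
    · intro b
      rw [hg]
      show mF y * ((∑ a ∈ (F y).filter (fun a => meets a b), μ a) / mF y) = _
      rw [mul_div_cancel₀]
      exact (hmFpos y hy).ne'
    · exact le_trans (Finset.sum_le_sum_of_subset_of_nonneg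
        (Finset.filter_subset_filter _ (hFG y hy)) (fun a _ _ => hμ a)) hnok
    · rw [div_le_one (by positivity)]
      linarith
    · have h5 := hmF0 y hy
      have e5 : LT / (2 * n) = (1 / 2) * (LT / n) := by field_simp
      have e6 : LT / 8 / n = (1 / 8) * (LT / n) := by ring
      rw [e5, e6]
      linarith
  have hSup2 : ∀ x ∈ I, Sup GG μ (pairPot (fun a => meets a (D x)) p) := by
    intro x hx
    exact sup_pairPot (fun a => meets a (D x)) p hp0.le (hmeet (D x) (hD x hx))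
  have hSup := (Sup.sum J _ hSup1).add (Sup.sum I _ hSup2)
  obtain ⟨Np, hNp⟩ := numerics n L s K Λ LT J.card I.card hJ hI hΛ hL hlam hK h2 h3 hLTn
  obtain ⟨l, hl, hle⟩ := hSup.chain hμ hMu.mass Np [] (by simp)
  have hinit : (∑ y ∈ J, hitPot ok meets (F y) (g y) γ p (LT / (2 * n)) Np []) +
      ∑ x ∈ I, pairPot (fun a => meets a (D x)) p Np [] < 1 := by
    simp only [hitPot_nil, pairPot_nil, Finset.sum_const, nsmul_eq_mul]
    rw [hp, hγ]
    exact hNp
  have hlt : (∑ y ∈ J, hitPot ok meets (F y) (g y) γ p (LT / (2 * n)) 0 l) +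
      ∑ x ∈ I, pairPot (fun a => meets a (D x)) p 0 l < 1 := lt_of_le_of_lt hle hinit
  have hs1 : 0 ≤ ∑ y ∈ J, hitPot ok meets (F y) (g y) γ p (LT / (2 * n)) 0 l :=
    Finset.sum_nonneg fun y _ => hitPot_nonneg ok meets (F y) (g y) γ p _ l
  have hs2 : 0 ≤ ∑ x ∈ I, pairPot (fun a => meets a (D x)) p 0 l :=
    Finset.sum_nonneg fun x _ => pairPot_nonneg _ p l
  refine ⟨acc ok meets l, ⟨?_, ?_, ?_, ?_, ?_, ?_⟩, ?_⟩
  · intro D' hD'
    exact hl D' (acc_sub ok meets l D' hD').1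
  · intro D' hD'
    exact ((hok D').mp (acc_sub ok meets l D' hD').2).1
  · intro D' hD'
    exact ((hok D').mp (acc_sub ok meets l D' hD').2).2.1
  · intro D' hD' u hu u' hu' huU hu'U
    exact ((hok D').mp (acc_sub ok meets l D' hD').2).2.2 u hu u' hu' huU hu'U
  · intro D' hD' D'' hD'' hne
    have := acc_disj ok meets hmsymm l D' hD' D'' hD'' hne
    rw [hmeets] at this
    exact not_not.mp this
  · intro x hx D' hD' D'' hD'' hm' hm''
    have h5 : pairPot (fun a => meets a (D x)) p 0 l ≤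
        ∑ x ∈ I, pairPot (fun a => meets a (D x)) p 0 l :=
      Finset.single_le_sum (f := fun x => pairPot (fun a => meets a (D x)) p 0 l)
        (fun x _ => pairPot_nonneg _ p l) hx
    exact pairPot_one (fun a => meets a (D x)) p l (by linarith) D' D''
      (acc_sub ok meets l D' hD').1 (acc_sub ok meets l D'' hD'').1
      ((hmeets _ _).mpr hm') ((hmeets _ _).mpr hm'')
  · intro y hy
    have h5 : hitPot ok meets (F y) (g y) γ p (LT / (2 * n)) 0 l ≤
        ∑ y ∈ J, hitPot ok meets (F y) (g y) γ p (LT / (2 * n)) 0 l :=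
      Finset.single_le_sum (f := fun y => hitPot ok meets (F y) (g y) γ p (LT / (2 * n)) 0 l)
        (fun y _ => hitPot_nonneg ok meets (F y) (g y) γ p _ l) hy
    exact hitPot_hit ok meets (F y) (g y) γ p (LT / (2 * n)) hγ0 l (by linarith)

end Pool.Agent.Lib.MP_fce888_co.C47
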